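import Pool.Agent.Lib.H62u.HC.HC_Top
set_option autoImplicit false
namespace H62
theorem HC_chk1_1 : go1 (lin1 (nat_lit 1048576) (nat_lit 313911)) 9 HC_c1.b C4.c2 HC_c0.a = true := by decide +kernel
end H62
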