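import Pool.Agent.Lib.H62u.HC.HC_Chk0_0
import Pool.Agent.Lib.H62u.HC.HC_Chk0_1
import Pool.Agent.Lib.H62u.HC.HC_Chk0_2
import Pool.Agent.Lib.H62u.HC.HC_Chk1_0
import Pool.Agent.Lib.H62u.HC.HC_Chk1_1
import Pool.Agent.Lib.H62u.HC.HC_Chk1_2
import Pool.Agent.Lib.H62u.HC.HC_Chk2_0
import Pool.Agent.Lib.H62u.HC.HC_Chk2_1
import Pool.Agent.Lib.H62u.HC.HC_Chk2_2
import Pool.Agent.Lib.H62u.HC.HC_ChkB_0
import Pool.Agent.Lib.H62u.HC.HC_ChkB_1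
import Pool.Agent.Lib.H62u.HC.HC_ChkB_2
set_option autoImplicit false
namespace H62
theorem HC_chk1 : go1 (lin1 (nat_lit 1048576) (nat_lit 313911)) 10 HC_c1 C4.c2 HC_c0 = true :=
  go1_split2 (n := 9) HC_c1 HC_c0 HC_chk1_0 HC_chk1_1 HC_chk1_2
theorem HC_chk2 : go2 (lin2 (nat_lit 1048576) (nat_lit 313911) (nat_lit 1456706)) 10 HC_c2 C4.c3 HC_c1 HC_root = true :=
  go2_split3 (n := 9) HC_c2 HC_c1 HC_root HC_chk2_0 HC_chk2_1 HC_chk2_2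
theorem HC_chk0 : go0 (lin2 (nat_lit 1048576) (nat_lit 313911) (nat_lit 797032)) 10 HC_c0 C4.c0 HC_c2 HC_root = true :=
  go0_split0 (n := 9) HC_c0 HC_c2 HC_root HC_chk0_0 HC_chk0_1 HC_chk0_2
theorem HC_chkB : blk (qmean (nat_lit 14)) 11 HC_root = true :=
  blk_split (n := 10) HC_root HC_chkB_0 HC_chkB_1 HC_chkB_2
end H62
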