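import Pool.Agent.Lib.H62u.HC.HC_Top
set_option autoImplicit false
namespace H62
theorem HC_chk0_0 : go0 (lin2 (nat_lit 1048576) (nat_lit 313911) (nat_lit 797032)) 9 HC_c0.a C4.c0 HC_c2.a HC_root.a = true := by decide +kernel
end H62
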