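import Pool.Agent.Lib.H62u.HC.HC_0
import Pool.Agent.Lib.H62u.HC.HC_1
import Pool.Agent.Lib.H62u.HC.HC_2
import Pool.Agent.Lib.H62u.HC.HC_3
import Pool.Agent.Lib.H62u.HC.HC_4
import Pool.Agent.Lib.H62u.HC.HC_5
import Pool.Agent.Lib.H62u.HC.HC_6
import Pool.Agent.Lib.H62u.HC.HC_7
import Pool.Agent.Lib.H62u.HC.HC_8
set_option autoImplicit false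
set_option linter.all false
namespace H62
noncomputable def HC_c0 : (Tri (Tri (Tri (Tri (Tri (Tri (Tri (Tri (Tri (Tri B0)))))))))) := ⟨⟨⟨⟨
HC_0,HC_81,HC_162⟩,⟨
HC_27,HC_108,HC_189⟩,⟨
HC_54,HC_135,HC_216⟩⟩,⟨⟨
HC_9,HC_90,HC_171⟩,⟨
HC_36,HC_117,HC_198⟩,⟨
HC_63,HC_144,HC_225⟩⟩,⟨⟨
HC_18,HC_99,HC_180⟩,⟨
HC_45,HC_126,HC_207⟩,⟨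
HC_72,HC_153,HC_234⟩⟩⟩,⟨⟨⟨
HC_3,HC_84,HC_165⟩,⟨
HC_30,HC_111,HC_192⟩,⟨
HC_57,HC_138,HC_219⟩⟩,⟨⟨
HC_12,HC_93,HC_174⟩,⟨
HC_39,HC_120,HC_201⟩,⟨
HC_66,HC_147,HC_228⟩⟩,⟨⟨
HC_21,HC_102,HC_183⟩,⟨
HC_48,HC_129,HC_210⟩,⟨
HC_75,HC_156,HC_237⟩⟩⟩,⟨⟨⟨
HC_6,HC_87,HC_168⟩,⟨
HC_33,HC_114,HC_195⟩,⟨
HC_60,HC_141,HC_222⟩⟩,⟨⟨
HC_15,HC_96,HC_177⟩,⟨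
HC_42,HC_123,HC_204⟩,⟨
HC_69,HC_150,HC_231⟩⟩,⟨⟨
HC_24,HC_105,HC_186⟩,⟨
HC_51,HC_132,HC_213⟩,⟨
HC_78,HC_159,HC_240⟩⟩⟩⟩
noncomputable def HC_c1 : (Tri (Tri (Tri (Tri (Tri (Tri (Tri (Tri (Tri (Tri B0)))))))))) := ⟨⟨⟨⟨
HC_1,HC_82,HC_163⟩,⟨
HC_28,HC_109,HC_190⟩,⟨
HC_55,HC_136,HC_217⟩⟩,⟨⟨
HC_10,HC_91,HC_172⟩,⟨
HC_37,HC_118,HC_199⟩,⟨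
HC_64,HC_145,HC_226⟩⟩,⟨⟨
HC_19,HC_100,HC_181⟩,⟨
HC_46,HC_127,HC_208⟩,⟨
HC_73,HC_154,HC_235⟩⟩⟩,⟨⟨⟨
HC_4,HC_85,HC_166⟩,⟨
HC_31,HC_112,HC_193⟩,⟨
HC_58,HC_139,HC_220⟩⟩,⟨⟨
HC_13,HC_94,HC_175⟩,⟨
HC_40,HC_121,HC_202⟩,⟨
HC_67,HC_148,HC_229⟩⟩,⟨⟨
HC_22,HC_103,HC_184⟩,⟨
HC_49,HC_130,HC_211⟩,⟨
HC_76,HC_157,HC_238⟩⟩⟩,⟨⟨⟨
HC_7,HC_88,HC_169⟩,⟨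
HC_34,HC_115,HC_196⟩,⟨
HC_61,HC_142,HC_223⟩⟩,⟨⟨
HC_16,HC_97,HC_178⟩,⟨
HC_43,HC_124,HC_205⟩,⟨
HC_70,HC_151,HC_232⟩⟩,⟨⟨
HC_25,HC_106,HC_187⟩,⟨
HC_52,HC_133,HC_214⟩,⟨
HC_79,HC_160,HC_241⟩⟩⟩⟩
noncomputable def HC_c2 : (Tri (Tri (Tri (Tri (Tri (Tri (Tri (Tri (Tri (Tri B0)))))))))) := ⟨⟨⟨⟨
HC_2,HC_83,HC_164⟩,⟨
HC_29,HC_110,HC_191⟩,⟨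
HC_56,HC_137,HC_218⟩⟩,⟨⟨
HC_11,HC_92,HC_173⟩,⟨
HC_38,HC_119,HC_200⟩,⟨
HC_65,HC_146,HC_227⟩⟩,⟨⟨
HC_20,HC_101,HC_182⟩,⟨
HC_47,HC_128,HC_209⟩,⟨
HC_74,HC_155,HC_236⟩⟩⟩,⟨⟨⟨
HC_5,HC_86,HC_167⟩,⟨
HC_32,HC_113,HC_194⟩,⟨
HC_59,HC_140,HC_221⟩⟩,⟨⟨
HC_14,HC_95,HC_176⟩,⟨
HC_41,HC_122,HC_203⟩,⟨
HC_68,HC_149,HC_230⟩⟩,⟨⟨
HC_23,HC_104,HC_185⟩,⟨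
HC_50,HC_131,HC_212⟩,⟨
HC_77,HC_158,HC_239⟩⟩⟩,⟨⟨⟨
HC_8,HC_89,HC_170⟩,⟨
HC_35,HC_116,HC_197⟩,⟨
HC_62,HC_143,HC_224⟩⟩,⟨⟨
HC_17,HC_98,HC_179⟩,⟨
HC_44,HC_125,HC_206⟩,⟨
HC_71,HC_152,HC_233⟩⟩,⟨⟨
HC_26,HC_107,HC_188⟩,⟨
HC_53,HC_134,HC_215⟩,⟨
HC_80,HC_161,HC_242⟩⟩⟩⟩
noncomputable def HC_root : (Tri (Tri (Tri (Tri (Tri (Tri (Tri (Tri (Tri (Tri (Tri B0))))))))))) := ⟨HC_c0,HC_c1,HC_c2⟩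
end H62
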